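import Pool.Agent.Helper92.RECT.Goals4
import Pool.Agent.Helper56.OHS.CUB

/-!
# Packet RECT-REG (MP_c578c8_lc): the tests of the positions
-/

namespace Pool.Agent.Helper22.RECT

open Pool.Agent.Helper65.LinSpace Pool.Agent.Helper78.Mpc Pool.Agent.Helper28.Ram Finset
open Pool.Agent.Helper65.OH (Prm OneHead Conf Par InBox co GoodQ Fns)
open Pool.Agent.Helper28.OHS (cellN cs cn cd Rep Box)
open Pool.Agent.Helper92.RECT

theorem btw_iff (s : Sp) (a b g : ℕ) : s.btw a b g ≠ 0 ↔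
    a + 2 ^ (s.G.κ - 1) ≤ g + 2 ^ s.π ∧ g + 2 ^ s.π < b + 2 ^ (s.G.κ - 1) := by
  unfold Sp.btw le01 lt01
  split_ifs <;> simp_all

/-- The test for the first coordinate `z`. -/
theorem btw_int (s : Sp) (a b g : ℕ) (z : ℤ) (hg : (g : ℤ) = z + 2 ^ (s.G.κ - 1)) :
    s.btw a b g ≠ 0 ↔ (a : ℤ) - 2 ^ s.π ≤ z ∧ z < (b : ℤ) - 2 ^ s.π := by
  rw [btw_iff]
  have e1 : (a + 2 ^ (s.G.κ - 1) ≤ g + 2 ^ s.π) ↔ (a : ℤ) - 2 ^ s.π ≤ z := by
    rw [← Int.ofNat_le]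
    push_cast
    rw [hg]
    constructor <;> intro h <;> linarith
  have e2 : (g + 2 ^ s.π < b + 2 ^ (s.G.κ - 1)) ↔ z < (b : ℤ) - 2 ^ s.π := by
    rw [← Int.ofNat_lt]
    push_cast
    rw [hg]
    constructor <;> intro h <;> linarith
  rw [e1, e2]

theorem co_int {D κ : ℕ} {p : Fin D → ℤ} (h : InBox κ p) {k : ℕ} (hk : k < D) :
    ((co κ p k : ℕ) : ℤ) = p ⟨k, hk⟩ + 2 ^ (κ - 1) := by
  unfold co
  rw [dif_pos hk]
  exact Int.toNat_of_nonneg (h ⟨k, hk⟩).1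

theorem oth_iff (s : Sp) (p : ℕ) : s.oth p ≠ 0 ↔ ∀ j < s.m.D, j ≠ 0 →
    2 ^ (s.G.κ - 1) ≤ dig (2 ^ s.G.κ) p j + 2 ^ (s.m.κ - 1) ∧
      dig (2 ^ s.G.κ) p j + 2 ^ (s.m.κ - 1) - 2 ^ (s.G.κ - 1) < 2 ^ s.m.κ := by
  unfold Sp.oth eq01
  have h0 : ∀ j : ℕ, (1 - ifz j 1 (le01 (2 ^ (s.G.κ - 1)) (dig (2 ^ s.G.κ) p j + 2 ^ (s.m.κ - 1)) *
      lt01 (dig (2 ^ s.G.κ) p j + 2 ^ (s.m.κ - 1) - 2 ^ (s.G.κ - 1)) (2 ^ s.m.κ)) = 0) ↔
      (j ≠ 0 → 2 ^ (s.G.κ - 1) ≤ dig (2 ^ s.G.κ) p j + 2 ^ (s.m.κ - 1) ∧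
        dig (2 ^ s.G.κ) p j + 2 ^ (s.m.κ - 1) - 2 ^ (s.G.κ - 1) < 2 ^ s.m.κ) := by
    intro j
    unfold ifz le01 lt01
    by_cases hj : j = 0
    · simp [hj]
    · simp only [hj, if_false, ne_eq, not_false_eq_true, forall_true_left]
      split_ifs with h1 h2 h2
      · simp [h1, h2]
      · simp [h2]
      · simp [h1]
      · simp [h1]
  constructor
  · intro h j hj
    have h1 : (∑ j ∈ range s.m.D, (1 - ifz j 1
      (le01 (2 ^ (s.G.κ - 1)) (dig (2 ^ s.G.κ) p j + 2 ^ (s.m.κ - 1)) *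
      lt01 (dig (2 ^ s.G.κ) p j + 2 ^ (s.m.κ - 1) - 2 ^ (s.G.κ - 1)) (2 ^ s.m.κ)))) = 0 := by
      by_contra hne
      exact h (if_neg hne)
    exact (h0 j).1 ((Finset.sum_eq_zero_iff.1 h1) j (mem_range.2 hj))
  · intro h
    have h1 : (∑ j ∈ range s.m.D, (1 - ifz j 1
      (le01 (2 ^ (s.G.κ - 1)) (dig (2 ^ s.G.κ) p j + 2 ^ (s.m.κ - 1)) *
      lt01 (dig (2 ^ s.G.κ) p j + 2 ^ (s.m.κ - 1) - 2 ^ (s.G.κ - 1)) (2 ^ s.m.κ)))) = 0 :=
      Finset.sum_eq_zero fun j hj => (h0 j).2 (h j (mem_range.1 hj))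
    rw [if_pos h1]
    exact one_ne_zero

theorem reg : REG_stmt where
  hp := by
    intro D A w y s N hB C hR a b
    have hD := hB.pos
    apply btw_int
    have h1 := hR.good.cq ⟨0, hD⟩
    unfold Prm.cq at h1
    rw [hB.S] at h1
    unfold Sp.hp fst
    rw [dif_pos hD]
    exact h1
  al := by
    intro D A w y s N hB p hp a b
    have hD := hB.pos
    obtain ⟨eA, eN, eW, c₀, hG⟩ := hB.parG
    obtain ⟨eA', eN', eW', c₀', hm⟩ := hB.par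
    have hc := (Pool.Agent.Helper56.OHS.cub.cell s.G p hG.h_D hp).2.2.2
    have h0 : s.btw a b (dig (2 ^ s.G.κ) (cd s.G p) 0) ≠ 0 ↔
        (a : ℤ) - 2 ^ s.π ≤ fst p ∧ fst p < (b : ℤ) - 2 ^ s.π := by
      apply btw_int
      rw [hc 0 hD, co_int hp hD]
      unfold fst
      rw [dif_pos hD]
    have hκ : s.m.κ = (s.m.κ - 1) + 1 := by
      have := hB.κ
      omega
    have h1 : s.oth (cd s.G p) ≠ 0 ↔
        ∀ k : Fin D, k.val ≠ 0 → -2 ^ (s.m.κ - 1) ≤ p k ∧ p k < 2 ^ (s.m.κ - 1) := by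
      rw [oth_iff]
      have key : ∀ j, (hj : j < D) → ((2 ^ (s.G.κ - 1) ≤ dig (2 ^ s.G.κ) (cd s.G p) j + 2 ^ (s.m.κ - 1) ∧
          dig (2 ^ s.G.κ) (cd s.G p) j + 2 ^ (s.m.κ - 1) - 2 ^ (s.G.κ - 1) < 2 ^ s.m.κ) ↔
          -2 ^ (s.m.κ - 1) ≤ p ⟨j, hj⟩ ∧ p ⟨j, hj⟩ < 2 ^ (s.m.κ - 1)) := by
        intro j hj
        rw [hc j hj]
        have e := co_int hp hj
        have e1 : (2 ^ (s.G.κ - 1) ≤ co s.G.κ p j + 2 ^ (s.m.κ - 1)) ↔
            -2 ^ (s.m.κ - 1) ≤ p ⟨j, hj⟩ := by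
          rw [← Int.ofNat_le]
          push_cast
          rw [e]
          constructor <;> intro h <;> linarith
        constructor
        · rintro ⟨h2, h3⟩
          refine ⟨e1.1 h2, ?_⟩
          have h4 : co s.G.κ p j + 2 ^ (s.m.κ - 1) < 2 ^ s.m.κ + 2 ^ (s.G.κ - 1) := by omega
          have h5 : ((co s.G.κ p j : ℕ) : ℤ) + 2 ^ (s.m.κ - 1) < 2 ^ s.m.κ + 2 ^ (s.G.κ - 1) := by
            exact_mod_cast h4
          rw [e] at h5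
          have h6 : (2 : ℤ) ^ s.m.κ = 2 * 2 ^ (s.m.κ - 1) := by
            rw [hκ, Nat.add_sub_cancel, pow_succ]
            ring
          rw [h6] at h5
          linarith
        · rintro ⟨h2, h3⟩
          have h2' := e1.2 h2
          refine ⟨h2', ?_⟩
          have h6 : (2 : ℤ) ^ s.m.κ = 2 * 2 ^ (s.m.κ - 1) := by
            rw [hκ, Nat.add_sub_cancel, pow_succ]
            ring
          have h5 : ((co s.G.κ p j : ℕ) : ℤ) + 2 ^ (s.m.κ - 1) < 2 ^ s.m.κ + 2 ^ (s.G.κ - 1) := by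
            rw [e, h6]
            linarith
          have h4 : co s.G.κ p j + 2 ^ (s.m.κ - 1) < 2 ^ s.m.κ + 2 ^ (s.G.κ - 1) := by
            exact_mod_cast h5
          omega
      rw [hm.h_D]
      constructor
      · intro h k hk
        exact (key k.val k.isLt).1 (h k.val k.isLt hk)
      · intro h j hj hj0
        exact (key j hj).2 (h ⟨j, hj⟩ hj0)
    rw [mul_ne_zero_iff, h0, h1]
    unfold Rgn
    exact and_assoc

end Pool.Agent.Helper22.RECT
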